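import Pool.Agent.Helper5.CR.FLAB
import Pool.Agent.Helper1.CR.DIM

/-!
# The regions of connected patterns are discs
-/

namespace Pool.Agent.Helper77.CR

open Pool.Agent.Helper9.FA (Item Cor Ang wfP labels)
open Pool.Agent.Helper9.TW (Lab Conn)
open Pool.Agent.Helper28.TX (PV Pot)

variable {α : Type}

theorem disc {P : List (Item α)} (hc : Conn P) {g0 g1 : Bool} {θ : List (PV Bool)}
    {e : List (Bool × Bool × Bool)} (h : Pot g0 g1 P [g0, g1] θ e) :
    0 ≤ EU θ e ∧ (g0 = false → g1 = false → Tru θ e → 1 ≤ EU θ e) := by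
  obtain ⟨K, _, _, _, d, ys, hF, -, -, hsp, h1, h2⟩ := flow_dim h
  have h0 : ∀ ψ : K →ₗ[ℝ] ℝ, ψ = 0 := by
    intro ψ
    apply hsp
    obtain ⟨L, hL, hz⟩ := fl_lab (fl_map ψ hF)
    have := hz (hc L _ hL)
    intro y hy
    exact this _ (List.mem_map_of_mem hy)
  have h3 : Module.finrank ℝ K = 0 := by
    rw [← Subspace.dual_finrank_eq]
    haveI : Subsingleton (Module.Dual ℝ K) := ⟨fun a b => by rw [h0 a, h0 b]⟩
    exact Module.finrank_zero_of_subsingleton
  rw [h3] at h1 h2
  constructor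
  · push_cast at h1; linarith
  · intro hg0 hg1 ht
    have := h2 (by simp [hg0, hg1]) ht
    push_cast at this
    linarith

end Pool.Agent.Helper77.CR
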