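import Pool.Agent.Helper77.CR.BASE
import Pool.Agent.Helper49.CR.CLUSK

/-!
# Splitting
-/

namespace Pool.Agent.Helper77.CR

open Pool.Agent.Helper9.FA (Item Cor Ang wfP labels)
open Pool.Agent.Helper9.TW (Lab Conn)
open Pool.Agent.Helper28.TX (PV Pot)

variable {α : Type}

theorem clus_zip {A B C D : Type} (F : B → C) (H : B → D) {R : A × C → D → Prop} {S : A → B → Prop}
    (hS : ∀ b q, R (b, F q) (H q) → S b q) :
    ∀ (δ : List A) (θ : List B), δ.length = θ.length →
      List.Forall₂ R (List.zip δ (θ.map F)) (θ.map H) → List.Forall₂ S δ θ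
  | [], [], _, _ => .nil
  | [], _ :: _, h, _ => by simp at h
  | _ :: _, [], h, _ => by simp at h
  | b :: δ, q :: θ, h, hF => by
    simp only [List.map_cons, List.zip_cons_cons, List.forall₂_cons] at hF
    exact .cons (hS _ _ hF.1) (clus_zip F H hS δ θ (by simpa using h) hF.2)

theorem clus_cor {K K' : Type} (f : K → K') (q : PV K) : cor (q.map f) = (cor q).map f := rfl

theorem clus_zipcor {K' K'' : Type} (f : ℕ → K') (h : ℕ → K'') (q : PV ℕ) :
    List.zip (cor (q.map f)) (cor (q.map h)) = (cor q).map fun x => (f x, h x) := rfl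

theorem clus {P : List (Item α)} {c0 c1 : ℕ} {θ : List (PV ℕ)} {e : List (Bool × ℕ × ℕ)}
    (hU : Uni P c0 c1 [c0, c1] θ e) {R : Finset ℕ} (hR : R ⊆ All c0 c1 θ e) {δ : List Bool}
    (hδ : δ.length = θ.length)
    (h2 : 2 ≤ EC (θ.map (PV.map fun x => decide (x ∈ R))) (mE (fun x => decide (x ∈ R)) e) +
      nBT δ (θ.map (PV.map fun x => decide (x ∈ R)))) :
    ∃ R1 R2 : Finset ℕ, Disjoint R1 R2 ∧ R1 ∪ R2 = R ∧ R1.Nonempty ∧ R2.Nonempty ∧
      List.Forall₂ (fun (b : Bool) (q : PV ℕ) =>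
        ¬ (b = true ∧ BT (q.map fun x => decide (x ∈ R))) →
          (∀ x ∈ cor q, x ∉ R1) ∨ (∀ x ∈ cor q, x ∉ R2)) δ θ := by
  classical
  have hc0 : decide (c0 ∈ R) = false := by
    rw [decide_eq_false_iff_not]
    intro h
    have := hR h
    simp [All] at this
  have hc1 : decide (c1 ∈ R) = false := by
    rw [decide_eq_false_iff_not]
    intro h
    have := hR h
    simp [All] at this
  have hP := pot_map (fun x => decide (x ∈ R)) hU.pot
  simp only [hc0, hc1, List.map_cons, List.map_nil] at hP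
  obtain ⟨K, _, _, _, c', θ', e', hp, -, -, hθ, he, hsp, hfin⟩ := clusK hP (δ := δ) (by simpa using hδ)
  obtain ⟨h, -, -, -, rfl, rfl⟩ := hU.uni K 0 0 c' θ' e' hp
  have hfr : 2 ≤ Module.finrank ℝ K := by
    have := le_trans h2 hfin
    exact_mod_cast this
  -- values outside of R
  have hθ0 : List.Forall₂ (fun (_ : Bool) (q : PV ℕ) => ∀ x ∈ cor q, x ∉ R → h x = 0) δ θ := by
    refine clus_zip _ _ ?_ δ θ hδ hθ
    intro b q hq x hx hxR
    have := hq.1 (decide (x ∈ R), h x) (by
      rw [clus_zipcor]; exact List.mem_map_of_mem (f := fun x => (decide (x ∈ R), h x)) hx)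
    exact this (by simpa using hxR)
  have hθ1 : ∀ q ∈ θ, ∀ x ∈ cor q, x ∉ R → h x = 0 := by
    intro q hq
    obtain ⟨i, hi, rfl⟩ := List.mem_iff_getElem.1 hq
    exact List.Forall₂.get hθ0 (by rw [hδ]; exact hi) hi
  have he1 : ∀ y ∈ e, (y.2.1 ∉ R → h y.2.1 = 0) ∧ (y.2.2 ∉ R → h y.2.2 = 0) := by
    intro y hy
    rw [mE, mE, List.forall₂_map_left_iff, List.forall₂_map_right_iff, List.forall₂_same] at he
    have := he y hy
    simp only [decide_eq_false_iff_not] at this
    exact ⟨this.1, this.2.1⟩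
  have hex : ∃ x ∈ R, ∃ y ∈ R, h y ≠ h x := by
    by_contra hcon
    push Not at hcon
    obtain ⟨k, hk⟩ : ∃ k : K, ∀ x ∈ R, h x = k := by
      by_cases hne : R.Nonempty
      · obtain ⟨x, hx⟩ := hne
        exact ⟨h x, fun y hy => hcon x hx y hy⟩
      · rw [Finset.not_nonempty_iff_eq_empty] at hne
        exact ⟨0, by simp [hne]⟩
    have hle : (⊤ : Submodule ℝ K) ≤ Submodule.span ℝ {k} := by
      rw [← hsp, Submodule.span_le]
      intro x hx
      have key : ∀ z, (z ∉ R → h z = 0) → h z ∈ Submodule.span ℝ {k} := by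
        intro z hz
        by_cases hzR : z ∈ R
        · rw [hk z hzR]; exact Submodule.mem_span_singleton_self k
        · rw [hz hzR]; exact Submodule.zero_mem _
      rcases hx with hx | ⟨y, hy, hx⟩
      · rw [List.mem_flatMap] at hx
        obtain ⟨q', hq', hx⟩ := hx
        rw [List.mem_map] at hq'
        obtain ⟨q, hq, rfl⟩ := hq'
        rw [clus_cor, List.mem_map] at hx
        obtain ⟨z, hz, rfl⟩ := hx
        exact key z (hθ1 q hq z hz)
      · rw [mE, List.mem_map] at hy
        obtain ⟨y', hy', rfl⟩ := hy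
        rcases hx with rfl | rfl
        · exact key _ (he1 y' hy').1
        · exact key _ (he1 y' hy').2
    have h3 : Module.finrank ℝ K ≤ 1 := by
      calc Module.finrank ℝ K = Module.finrank ℝ (⊤ : Submodule ℝ K) := (finrank_top ℝ K).symm
        _ ≤ Module.finrank ℝ (Submodule.span ℝ {k}) := Submodule.finrank_mono hle
        _ ≤ 1 := (finrank_span_le_card ({k} : Set K)).trans (by simp)
    omega
  obtain ⟨x, hx, y, hy, hxy⟩ := hex
  refine ⟨R.filter fun z => h z = h x, R.filter fun z => h z ≠ h x, ?_, ?_, ⟨x, by simp [hx]⟩,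
    ⟨y, by simp [hy, hxy]⟩, ?_⟩
  · exact Finset.disjoint_filter_filter_not _ _ _
  · exact Finset.filter_union_filter_not_eq _ _
  · refine clus_zip _ _ ?_ δ θ hδ hθ
    intro b q hq hbt
    by_contra hcon
    push Not at hcon
    obtain ⟨⟨u, hu, hu'⟩, ⟨v, hv, hv'⟩⟩ := hcon
    rw [Finset.mem_filter] at hu' hv'
    have := hq.2 hbt (decide (u ∈ R), h u) (by
      rw [clus_zipcor]; exact List.mem_map_of_mem (f := fun x => (decide (x ∈ R), h x)) hu)
      (decide (v ∈ R), h v) (by
      rw [clus_zipcor]; exact List.mem_map_of_mem (f := fun x => (decide (x ∈ R), h x)) hv)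
      (by simpa using hu'.1) (by simpa using hv'.1)
    exact hv'.2 (by rw [← hu'.2]; exact this.symm)

end Pool.Agent.Helper77.CR
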