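import Pool.Agent.Helper77.CR.BASE

/-!
# Flows and labellings
-/

namespace Pool.Agent.Helper77.CR

open Pool.Agent.Helper9.FA (Item Cor Ang wfP labels)
open Pool.Agent.Helper9.TW (Lab Conn)
open Pool.Agent.Helper28.TX (PV Pot)

variable {α : Type}

theorem fl_map {K K' : Type} [AddCommGroup K] [Module ℝ K] [AddCommGroup K'] [Module ℝ K']
    (ψ : K →ₗ[ℝ] K') {P : List (Item α)} {d ys : List K} (h : Fl P d ys) :
    Fl P (d.map ψ) (ys.map ψ) := by
  induction h with
  | nil => simpa using (Fl.nil : Fl ([] : List (Item α)) [(0 : K'), 0] [])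
  | @cup P l r ys x y h ih =>
    have h' : Fl P (l.map ψ ++ ψ x :: 0 :: ψ y :: r.map ψ) (ys.map ψ) := by simpa using ih
    simpa using Fl.cup h'
  | @cap P l r ys x y h ih =>
    have h' : Fl P (l.map ψ ++ (ψ x + ψ y) :: r.map ψ) (ys.map ψ) := by simpa using ih
    simpa using Fl.cap h'
  | @box P l r ys x y a h ih =>
    have h' : Fl P (l.map ψ ++ ψ x :: 0 :: ψ y :: r.map ψ) (ys.map ψ) := by simpa using ih
    simpa using Fl.box (a := a) h'

/-- partial sums -/
def flabPre : ℝ → List ℝ → List ℝ
  | _, [] => []
  | s, x :: l => (s + x) :: flabPre (s + x) l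

theorem flabPre_length (s : ℝ) (l : List ℝ) : (flabPre s l).length = l.length := by
  induction l generalizing s with
  | nil => rfl
  | cons x l ih => simp [flabPre, ih]

theorem flab_psum_append (s : ℝ) (l : List ℝ) (x : ℝ) (r : List ℝ) :
    psum s (l ++ x :: r) = flabPre s l ++ psum (s + l.sum) (x :: r) := by
  induction l generalizing s with
  | nil => simp [flabPre]
  | cons a l ih =>
    have h : psum s (a :: l ++ x :: r) = (s + a) :: psum (s + a) (l ++ x :: r) := by
      cases l with
      | nil => rfl
      | cons b l => rfl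
    rw [h, ih]
    simp only [flabPre, List.sum_cons, List.cons_append, add_assoc]

theorem flab_psum_split (s x y : ℝ) (r : List ℝ) :
    psum s ((x + y) :: r) = psum (s + x) (y :: r) := by
  cases r with
  | nil => rfl
  | cons a r => simp only [psum, add_assoc]

theorem flab_psum_three (s x y : ℝ) (r : List ℝ) :
    psum s (x :: 0 :: y :: r) = (s + x) :: (s + x) :: psum (s + x) (y :: r) := by
  simp only [psum, add_zero]

theorem flab_sum {P : List (Item α)} {d ys : List ℝ} (h : Fl P d ys) : d.sum = 0 := by
  induction h with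
  | nil => simp
  | cup h ih => simp at ih ⊢; linarith
  | cap h ih => simp at ih ⊢; linarith
  | box h ih => exact ih

theorem flab_lab_zero {P : List (Item α)} {L u : List ℝ} (h : Lab P L u) (h0 : ∀ s ∈ L, s = 0) :
    ∀ s ∈ u, s = 0 := by
  induction h with
  | nil => simp
  | @cup P L l r s h ih =>
    intro x hx
    apply ih h0
    simp only [List.mem_append, List.mem_cons] at hx ⊢
    tauto
  | @cap P L l r s h ih =>
    intro x hx
    have hs : s = 0 := h0 s (by simp)
    have h1 := ih (fun t ht => h0 t (by simp [ht]))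
    simp only [List.mem_append, List.mem_cons] at hx h1
    rcases hx with hx | hx | hx | hx
    · exact h1 x (Or.inl hx)
    · rw [hx, hs]
    · rw [hx, hs]
    · exact h1 x (Or.inr hx)
  | box h ih => exact ih h0

theorem flab_zero_of_psum (s : ℝ) (d : List ℝ) (hs : s = 0) (hd : s + d.sum = 0)
    (h : ∀ t ∈ psum s d, t = 0) : ∀ x ∈ d, x = 0 := by
  induction d generalizing s with
  | nil => simp
  | cons x d ih =>
    cases d with
    | nil =>
      intro y hy
      simp at hy hd
      subst hy
      linarith
    | cons y r =>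
      have h1 : s + x = 0 := h (s + x) (by simp [psum])
      have h2 := ih (s + x) h1 (by simp at hd ⊢; linarith)
        (fun t ht => h t (by simp only [psum, List.mem_cons]; exact Or.inr ht))
      intro z hz
      rcases List.mem_cons.1 hz with hz | hz
      · rw [hz]; linarith
      · exact h2 z hz

theorem fl_lab {P : List (Item α)} {d ys : List ℝ} (h : Fl P d ys) :
    ∃ L, Lab P L (psum 0 d) ∧ ((∀ s ∈ L, s = 0) → ∀ y ∈ ys, y = 0) := by
  induction h with
  | nil => exact ⟨[], by simpa [psum] using (Lab.nil : Lab ([] : List (Item α)) [] [0]), by simp⟩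
  | @cup P l r ys x y h ih =>
    obtain ⟨L, hL, h0⟩ := ih
    refine ⟨L, ?_, h0⟩
    rw [flab_psum_append, flab_psum_three] at hL
    rw [flab_psum_append, flab_psum_split]
    have := Lab.cup hL
    rwa [flabPre_length] at this
  | @cap P l r ys x y h ih =>
    obtain ⟨L, hL, h0⟩ := ih
    rw [flab_psum_append, flab_psum_split] at hL
    have h1 : Lab (.cap l.length :: P) ((0 + l.sum + x) :: L) (psum 0 (l ++ x :: 0 :: y :: r)) := by
      rw [flab_psum_append, flab_psum_three]
      have := Lab.cap (s := 0 + l.sum + x) hL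
      rwa [flabPre_length] at this
    refine ⟨(0 + l.sum + x) :: L, h1, fun hz => ?_⟩
    have h2 := flab_zero_of_psum 0 _ rfl (by rw [zero_add]; exact flab_sum (Fl.cap h)) (flab_lab_zero h1 hz)
    have h3 := h0 (fun s hs => hz s (by simp [hs]))
    intro z hz'
    simp only [List.mem_cons] at hz'
    rcases hz' with hz' | hz' | hz'
    · rw [hz']; exact h2 x (by simp)
    · rw [hz']; exact h2 y (by simp)
    · exact h3 z hz'
  | @box P l r ys x y a h ih =>
    obtain ⟨L, hL, h0⟩ := ih
    refine ⟨L, ?_, h0⟩
    rw [flab_psum_append, flab_psum_three] at hL ⊢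
    have := Lab.box (a := a) hL
    rwa [flabPre_length] at this

end Pool.Agent.Helper77.CR
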